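import Mathlib
import Pool.Agent.H147R3.PE.W3
set_option autoImplicit false

/-!
# The Fourier extension conjecture for the paraboloid, averaged over anisotropic dilates

For `f` on the disc of radius `1/2` and `l ≥ 1` let `f_l(x) = f(x_1, l x_2)`. For every `q > 3`
the inequality of the conjecture holds on average over `l ∈ [1, L]`:
`∫_1^L ‖E f_l‖_q^q dl ≤ C ‖f‖_q^q`. The theorem allows every measure `μ` with
`μ([a, a + r]) ≤ A r^α` in place of `dl`, a power weight in the time variable `ξ_3` and higher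
moments in `l`.
-/

namespace Pool.Agent.Results.MP_5ab805_an.AveragedDilates

open MeasureTheory Set Complex
open scoped ENNReal

/-- The Fourier extension operator of the paraboloid in `ℝ^3`:
`E f(ξ) = ∫ exp(-i (x_1 ξ_1 + x_2 ξ_2 + (x_1^2 + x_2^2) ξ_3)) f(x) dx`. -/
noncomputable def ext (f : ℝ × ℝ → ℂ) (ξ : ℝ × ℝ × ℝ) : ℂ :=
  ∫ x : ℝ × ℝ, Complex.exp (-I * (x.1 * ξ.1 + x.2 * ξ.2.1 + (x.1 ^ 2 + x.2 ^ 2) * ξ.2.2)) * f x

/-- The dilate `f_l(x) = f(x_1, l x_2)`. -/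
def dilate (l : ℝ) (f : ℝ × ℝ → ℂ) : ℝ × ℝ → ℂ := fun x => f (x.1, l * x.2)

/-- The open disc of radius `1/2` about the origin. -/
def disc : Set (ℝ × ℝ) := {x | x.1 ^ 2 + x.2 ^ 2 < 1 / 4}

open Pool.Agent.H147R3 in
lemma ext_eq (f : ℝ × ℝ → ℂ) : ext f = PE.ext f := rfl

open Pool.Agent.H147R3 in
lemma dilate_eq (l : ℝ) (f : ℝ × ℝ → ℂ) : dilate l f = PE.dil l f := rfl

lemma dilate_ae {f g : ℝ × ℝ → ℂ} (h : f =ᵐ[volume] g) {l : ℝ} (hl : 1 ≤ l) :
    dilate l f =ᵐ[volume] dilate l g := by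
  obtain ⟨N, hN, hNm, hN0⟩ := exists_measurable_superset_of_null (ae_iff.1 h)
  rw [Filter.EventuallyEq, ae_iff]
  have h1 := Pool.Agent.H147R3.PE.dil_lint (N.indicator fun _ => 1)
    (measurable_const.indicator hNm) l hl
  rw [lintegral_indicator hNm, lintegral_const, Measure.restrict_apply_univ, hN0, mul_zero] at h1
  have h2 : MeasurableSet {x : ℝ × ℝ | (x.1, l * x.2) ∈ N} := by
    have hc : Measurable fun x : ℝ × ℝ => ((x.1, l * x.2) : ℝ × ℝ) := by fun_prop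
    exact hc hNm
  have h3 : ∀ x : ℝ × ℝ, N.indicator (fun _ => (1 : ℝ≥0∞)) (x.1, l * x.2) =
      {x : ℝ × ℝ | (x.1, l * x.2) ∈ N}.indicator (fun _ => 1) x := by
    intro x
    simp only [indicator]
    rfl
  simp only [h3] at h1
  rw [lintegral_indicator h2, lintegral_const, Measure.restrict_apply_univ, one_mul] at h1
  refine measure_mono_null ?_ (le_antisymm h1 (zero_le))
  intro x hx
  exact hN hx

lemma ext_congr {f g : ℝ × ℝ → ℂ} (h : f =ᵐ[volume] g) (ξ : ℝ × ℝ × ℝ) : ext f ξ = ext g ξ := by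
  unfold ext
  apply integral_congr_ae
  filter_upwards [h] with x hx
  rw [hx]

/-- a nice representative -/
lemma rep (f : ℝ × ℝ → ℂ) (hf : AEStronglyMeasurable f volume)
    (hs : ∀ᵐ x : ℝ × ℝ, x ∉ disc → f x = 0) :
    ∃ g : ℝ × ℝ → ℂ, Pool.Agent.H147R3.PE.S2 g ∧ f =ᵐ[volume] g := by
  have hd : MeasurableSet disc :=
    measurableSet_lt ((measurable_fst.pow_const 2).add (measurable_snd.pow_const 2))
      measurable_const
  obtain ⟨g, hg, hfg⟩ := hf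
  refine ⟨disc.indicator g, ⟨hg.measurable.indicator hd, ?_, ?_⟩, ?_⟩
  · intro x hx
    apply indicator_of_notMem
    intro hxd
    have h1 : x.1 ^ 2 + x.2 ^ 2 < 1 / 4 := hxd
    have h2 : 1 < x.1 ^ 2 := by
      rw [← sq_abs]
      nlinarith
    nlinarith [sq_nonneg x.2]
  · intro x hx
    apply indicator_of_notMem
    intro hxd
    have h1 : x.1 ^ 2 + x.2 ^ 2 < 1 / 4 := hxd
    have h2 : 1 < x.2 ^ 2 := by
      rw [← sq_abs]
      nlinarith
    nlinarith [sq_nonneg x.1]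
  · filter_upwards [hfg, hs] with x h1 h2
    by_cases hx : x ∈ disc
    · rw [indicator_of_mem hx, h1]
    · rw [indicator_of_notMem hx, h2 hx]

/-- limit of the normalisation -/
lemma lim_eps (a K N : ℝ≥0∞) (hK : K ≠ ⊤)
    (h1 : ∀ ε : ℝ, 0 < ε → a ≤ K * (N + ENNReal.ofReal ε)) : a ≤ (K + 1) * N := by
  apply ENNReal.le_of_forall_pos_le_add
  intro ε hε _
  have hK1 : 0 < K.toReal + 1 := by positivity
  have h3 := h1 (ε / (K.toReal + 1)) (by positivity)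
  refine h3.trans ?_
  rw [mul_add]
  refine add_le_add (mul_le_mul' le_self_add le_rfl) ?_
  have e3 : K * ENNReal.ofReal (ε / (K.toReal + 1)) =
      ENNReal.ofReal (K.toReal * (ε / (K.toReal + 1))) := by
    rw [ENNReal.ofReal_mul (by positivity), ENNReal.ofReal_toReal hK]
  rw [e3]
  have h5 : K.toReal * (ε / (K.toReal + 1)) ≤ ε := by
    rw [← mul_div_assoc, div_le_iff₀ hK1]
    have h4 : (0 : ℝ) < ε := hε
    nlinarith [ENNReal.toReal_nonneg (a := K)]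
  calc ENNReal.ofReal (K.toReal * (ε / (K.toReal + 1))) ≤ ENNReal.ofReal ε :=
        ENNReal.ofReal_le_ofReal h5
    _ = ε := ENNReal.ofReal_coe_nnreal

open Pool.Agent.H147R3 in
/-- **The extension inequality averaged over anisotropic dilates.** `E = ext` is the extension
operator of the paraboloid in `ℝ^3` and `f_l(x) = f(x_1, l x_2)`, `l ≥ 1`, for `f` on the disc of
radius `1/2`. Let `0 < α ≤ 1`, `γ ≥ 0`, `q > 2 + 2 (1 + γ) / (1 + α)`, `1 ≤ p`,
`p (1 + γ) < 1 + α`, `A ≥ 0`, `L ≥ 1`. There is `C` such that for every measure `μ` on the line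
with `μ([a, a + r]) ≤ A r^α` for all intervals and every measurable `f` vanishing off the disc,
`∫_{[1, L]} (∫ (1 + |ξ_3|)^γ |E f_l(ξ)|^q dξ)^p dμ(l) ≤ C (∫ |f|^q)^p`.

For `μ` Lebesgue measure (`α = 1`), `γ = 0`, `p = 1` this is `∫_1^L ‖E f_l‖_q^q dl ≤ C ‖f‖_q^q` for
every `q > 3`. -/
theorem result (α γ p q A L : ℝ) (hα0 : 0 < α) (hα1 : α ≤ 1) (hγ0 : 0 ≤ γ)
    (hq : 2 + 2 * (1 + γ) / (1 + α) < q) (hp : 1 ≤ p) (hpα : p * (1 + γ) < 1 + α)
    (hA : 0 ≤ A) (hL : 1 ≤ L) :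
    ∃ C : ℝ, ∀ μ : Measure ℝ,
      (∀ a r : ℝ, 0 < r → μ (Icc a (a + r)) ≤ ENNReal.ofReal (A * r ^ α)) →
      ∀ f : ℝ × ℝ → ℂ, AEStronglyMeasurable f volume → (∀ᵐ x : ℝ × ℝ, x ∉ disc → f x = 0) →
      ∫⁻ l in Icc 1 L, (∫⁻ ξ : ℝ × ℝ × ℝ,
          ENNReal.ofReal ((1 + |ξ.2.2|) ^ γ) * ‖ext (dilate l f) ξ‖ₑ ^ q) ^ p ∂μ ≤
        ENNReal.ofReal C * (∫⁻ x, ‖f x‖ₑ ^ q) ^ p := by
  have hα2 : 0 < 2 * (1 + γ) / (1 + α) := by positivity
  have hq0 : 0 < q := by linarith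
  have hγ1 : 0 < 1 + γ := by linarith
  have hq2 : 2 / (q - 2) < (1 + α) / (1 + γ) := by
    rw [div_lt_div_iff₀ (by linarith) hγ1]
    have h2 : 2 * (1 + γ) / (1 + α) < q - 2 := by linarith
    rw [div_lt_iff₀ (by linarith)] at h2
    linarith
  have hpγ : p < (1 + α) / (1 + γ) := by rwa [lt_div_iff₀ hγ1]
  set p' : ℝ := (max p (2 / (q - 2)) + (1 + α) / (1 + γ)) / 2 with hp'
  have hm1 : max p (2 / (q - 2)) < (1 + α) / (1 + γ) := max_lt hpγ hq2
  have h1 : max p (2 / (q - 2)) < p' := by linarith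
  have h2 : p' * (1 + γ) < 1 + α := by
    rw [← lt_div_iff₀ hγ1]
    linarith
  have h3 : p < p' := lt_of_le_of_lt (le_max_left _ _) h1
  have h4 : 2 / (q - 2) < p' := lt_of_le_of_lt (le_max_right _ _) h1
  have h5 : 1 < p' := by linarith
  have h6 : 2 + 2 / p' < q := by
    rw [div_lt_iff₀ (by linarith)] at h4
    have : 2 / p' < q - 2 := by
      rw [div_lt_iff₀ (by linarith)]
      linarith
    linarith
  have hp'0 : 0 < p' := by linarith
  obtain ⟨K, hK, hKK⟩ := PE.main_p α γ p' q A L hA hα1 hγ0 h5 h2 h6 hL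
  set K' : ℝ≥0∞ := K ^ (1 / p') with hK'
  have hK't : K' ≠ ⊤ := ENNReal.rpow_ne_top_of_nonneg (by positivity) hK
  set m : ℝ≥0∞ := ENNReal.ofReal (A * L ^ α) with hm
  have hmt : m ^ (1 - p / p') ≠ ⊤ := by
    apply ENNReal.rpow_ne_top_of_nonneg _ ENNReal.ofReal_ne_top
    rw [sub_nonneg, div_le_one hp'0]
    exact h3.le
  have hCt : m ^ (1 - p / p') * (K' + 1) ^ p + 1 ≠ ⊤ :=
    ENNReal.add_ne_top.2 ⟨ENNReal.mul_ne_top hmt (ENNReal.rpow_ne_top_of_nonneg (by linarith)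
      (ENNReal.add_ne_top.2 ⟨hK't, by simp⟩)), by simp⟩
  refine ⟨(m ^ (1 - p / p') * (K' + 1) ^ p + 1).toReal, fun μ hμ f hf hs => ?_⟩
  rw [ENNReal.ofReal_toReal hCt]
  have hμm : μ (Icc 1 L) ≤ m :=
    (measure_mono (Icc_subset_Icc le_rfl (by linarith))).trans (hμ 1 L (by linarith))
  obtain ⟨g, hg, hfg⟩ := rep f hf hs
  have e1 : ∀ l ∈ Icc 1 L, (∫⁻ ξ : ℝ × ℝ × ℝ,
        ENNReal.ofReal ((1 + |ξ.2.2|) ^ γ) * ‖ext (dilate l f) ξ‖ₑ ^ q) ^ p =
      (∫⁻ ξ : ℝ × ℝ × ℝ, PE.wt γ ξ.2.2 * ‖PE.ext (PE.dil l g) ξ‖ₑ ^ q) ^ p := by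
    intro l hl
    congr 1
    apply lintegral_congr
    intro ξ
    rw [ext_congr (dilate_ae hfg hl.1) ξ]
    rfl
  have e2 : ∫⁻ x, ‖f x‖ₑ ^ q = ∫⁻ x, ‖g x‖ₑ ^ q := by
    apply lintegral_congr_ae
    filter_upwards [hfg] with x hx
    rw [hx]
  rw [setLIntegral_congr_fun measurableSet_Icc e1, e2]
  by_cases hN : ∫⁻ x, ‖g x‖ₑ ^ q = ⊤
  · rw [hN, ENNReal.top_rpow_of_pos (by linarith), ENNReal.mul_top (by simp)]
    exact le_top
  set N := ∫⁻ x, ‖g x‖ₑ ^ q with hNdef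
  set X : ℝ → ℝ≥0∞ := fun l =>
    ∫⁻ ξ : ℝ × ℝ × ℝ, PE.wt γ ξ.2.2 * ‖PE.ext (PE.dil l g) ξ‖ₑ ^ q with hX
  have hw3 : Measurable fun ξ : ℝ × ℝ × ℝ => PE.wt γ ξ.2.2 :=
    (PE.wt_meas γ).comp (measurable_snd.comp measurable_snd)
  have hX0 : Measurable fun p : ℝ × ℝ × ℝ × ℝ =>
      PE.wt γ p.2.2.2 * ‖PE.ext (PE.dil p.1 g) p.2‖ₑ ^ q :=
    (hw3.comp measurable_snd).mul ((PE.ext_meas hg.meas).enorm.pow_const q)
  have hXm : Measurable X := hX0.lintegral_prod_right'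
  have h7 : (∫⁻ l in Icc 1 L, X l ^ p' ∂μ) ^ (1 / p') ≤ (K' + 1) * N := by
    apply lim_eps _ _ _ hK't
    intro ε hε
    have hs0 : 0 < (N.toReal + ε) := by positivity
    have h8 := hKK μ hμ g hg ((N.toReal + ε) ^ (1 / q)) (by positivity) (by
      rw [← Real.rpow_mul hs0.le, one_div, inv_mul_cancel₀ hq0.ne', Real.rpow_one,
        ENNReal.ofReal_add (by positivity) hε.le, ENNReal.ofReal_toReal hN]
      exact le_self_add)
    rw [← Real.rpow_mul hs0.le, one_div, inv_mul_cancel₀ hq0.ne', Real.rpow_one,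
        ENNReal.ofReal_add (by positivity) hε.le, ENNReal.ofReal_toReal hN] at h8
    have h9 := ENNReal.rpow_le_rpow h8 (show 0 ≤ 1 / p' by positivity)
    rw [ENNReal.mul_rpow_of_nonneg _ _ (by positivity), ← ENNReal.rpow_mul,
      mul_one_div_cancel hp'0.ne', ENNReal.rpow_one] at h9
    exact h9
  -- from `p'` to `p`
  have h8 : ∫⁻ l in Icc 1 L, X l ^ p ∂μ ≤
      (∫⁻ l in Icc 1 L, X l ^ p' ∂μ) ^ (p / p') * m ^ (1 - p / p') := by
    have hpq : (p' / p).HolderConjugate (p' / (p' - p)) := by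
      rw [Real.holderConjugate_iff]
      constructor
      · rw [lt_div_iff₀ (by linarith)]
        linarith
      · rw [inv_div, inv_div]
        field_simp
        ring
    have hh := ENNReal.lintegral_mul_le_Lp_mul_Lq (μ.restrict (Icc 1 L)) hpq
      (f := fun l => X l ^ p) (g := fun _ => 1) (hXm.pow_const p).aemeasurable aemeasurable_const
    have e3 : ∀ l, ((fun l => X l ^ p) * (fun _ : ℝ => (1 : ℝ≥0∞))) l = X l ^ p := by
      intro l
      simp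
    have e4 : ∀ l, (X l ^ p) ^ (p' / p) = X l ^ p' := by
      intro l
      rw [← ENNReal.rpow_mul]
      congr 1
      field_simp
    simp only [e3, e4, ENNReal.one_rpow, lintegral_const, Measure.restrict_apply_univ, one_mul] at hh
    refine hh.trans ?_
    have e5 : 1 / (p' / p) = p / p' := by field_simp
    have e6 : 1 / (p' / (p' - p)) = 1 - p / p' := by
      field_simp
    rw [e5, e6]
    refine mul_le_mul' le_rfl (ENNReal.rpow_le_rpow hμm ?_)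
    rw [sub_nonneg, div_le_one hp'0]
    exact h3.le
  refine h8.trans ?_
  have h9 : (∫⁻ l in Icc 1 L, X l ^ p' ∂μ) ^ (p / p') ≤ (K' + 1) ^ p * N ^ p := by
    have := ENNReal.rpow_le_rpow h7 (show 0 ≤ p by linarith)
    rw [← ENNReal.rpow_mul, ENNReal.mul_rpow_of_nonneg _ _ (by linarith)] at this
    have e7 : 1 / p' * p = p / p' := by ring
    rwa [e7] at this
  calc (∫⁻ l in Icc 1 L, X l ^ p' ∂μ) ^ (p / p') * m ^ (1 - p / p')
      ≤ ((K' + 1) ^ p * N ^ p) * m ^ (1 - p / p') := mul_le_mul' h9 le_rfl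
    _ = (m ^ (1 - p / p') * (K' + 1) ^ p) * N ^ p := by ring
    _ ≤ _ := mul_le_mul' le_self_add le_rfl

end Pool.Agent.Results.MP_5ab805_an.AveragedDilates
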