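import Mathlib
import Pool.Agent.H728R3.SR.V
set_option autoImplicit false

/-!
# The extension operator of the paraboloid in `ℝ³` on `L^q(dx₁; BV(dx₂))`, `q > 3`

For a measurable `f` on `[-1,1]²` let `B(x₁)` bound both `sup |f(x₁, ·)|` and the total variation
of `f(x₁, ·)`. Then `‖E f‖_{L^q(ℝ³)} ≤ C(q) ‖B‖_{L^q}` for every `q > 3`, the full range of the
extension conjecture. Nothing is assumed on the dependence on `x₁` beyond measurability.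
-/

namespace Pool.Agent.Results.MP_5ab805_an.BoundedVariation

open MeasureTheory Set Complex
open scoped ENNReal NNReal

/-- The extension operator of the problem, `E f(ξ) = ∫ exp(-i Φ(x)·ξ) f(x) dx` with
`Φ(x) = (x₁, x₂, x₁² + x₂²)`; here `ξ = (ξ₁, (ξ₂, ξ₃))`. -/
noncomputable def ext (f : ℝ × ℝ → ℂ) (ξ : ℝ × ℝ × ℝ) : ℂ :=
  ∫ x : ℝ × ℝ, cexp (-I * (x.1 * ξ.1 + x.2 * ξ.2.1 + (x.1 ^ 2 + x.2 ^ 2) * ξ.2.2)) * f x

open Pool.Agent.H728R3.SR in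
lemma ext_eq {f : ℝ × ℝ → ℂ} (hf : Measurable f) (hfin : ∫⁻ x, ‖f x‖ₑ ≠ ⊤)
    (h1 : ∀ x : ℝ × ℝ, 1 < |x.1| → f x = 0) (h2 : ∀ x : ℝ × ℝ, 1 < |x.2| → f x = 0)
    (ξ : ℝ × ℝ × ℝ) : ext f ξ = FF2 f (rr0 • ξ).1 (rr0 • ξ).2.1 (rr0 • ξ).2.2 := by
  have hph : Measurable fun x : ℝ × ℝ =>
      cexp (-I * (x.1 * ξ.1 + x.2 * ξ.2.1 + (x.1 ^ 2 + x.2 ^ 2) * ξ.2.2)) := by fun_prop
  have hn : ∀ x : ℝ × ℝ,
      ‖cexp (-I * (x.1 * ξ.1 + x.2 * ξ.2.1 + (x.1 ^ 2 + x.2 ^ 2) * ξ.2.2))‖ₑ = 1 := by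
    intro x
    have e : -I * (x.1 * ξ.1 + x.2 * ξ.2.1 + (x.1 ^ 2 + x.2 ^ 2) * ξ.2.2 : ℂ) =
        ((-(x.1 * ξ.1 + x.2 * ξ.2.1 + (x.1 ^ 2 + x.2 ^ 2) * ξ.2.2) : ℝ) : ℂ) * I := by
      push_cast
      ring
    rw [← ofReal_norm, e, Complex.norm_exp_ofReal_mul_I, ENNReal.ofReal_one]
  have hint : Integrable (fun x : ℝ × ℝ =>
      cexp (-I * (x.1 * ξ.1 + x.2 * ξ.2.1 + (x.1 ^ 2 + x.2 ^ 2) * ξ.2.2)) * f x) := by
    refine ⟨(hph.mul hf).aestronglyMeasurable, ?_⟩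
    unfold HasFiniteIntegral
    simp only [enorm_mul, hn, one_mul]
    exact lt_top_iff_ne_top.2 hfin
  rw [Measure.volume_eq_prod] at hint
  unfold ext FF2
  rw [Measure.volume_eq_prod, integral_prod _ hint]
  simp only [Prod.smul_fst, Prod.smul_snd, smul_eq_mul]
  rw [← e1_gen (fun u => e1 (fun v => f (u, v)) (rr0 * ξ.2.1) (rr0 * ξ.2.2)) (by
    intro u hu
    have : (fun v => f (u, v)) = fun _ => 0 := by
      ext v
      exact h1 (u, v) hu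
    rw [this]
    unfold e1
    simp)]
  apply integral_congr_ae
  refine ae_of_all _ fun u => ?_
  simp only
  rw [← e1_gen (fun v => f (u, v)) (fun v hv => h2 (u, v) hv), ← integral_mul_const]
  apply integral_congr_ae
  refine ae_of_all _ fun v => ?_
  simp only
  have h5 : cexp (-I * ((u : ℂ) * ξ.1 + v * ξ.2.1 + ((u : ℂ) ^ 2 + (v : ℂ) ^ 2) * ξ.2.2)) =
      cexp (-I * ((v : ℂ) * ξ.2.1 + (v : ℂ) ^ 2 * ξ.2.2)) *
      cexp (-I * ((u : ℂ) * ξ.1 + (u : ℂ) ^ 2 * ξ.2.2)) := by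
    rw [← Complex.exp_add]
    congr 1
    ring
  rw [h5]
  ring

/-- **The extension estimate from `L^q(dx₁; BV(dx₂))` to `L^q(ℝ³)`, for all `q > 3`.** There is `C`
depending only on `q` such that for every measurable `f` vanishing off `[-1,1]²` and every
measurable `B ≥ 0` such that, for each `u` in `[-1,1]`, both `|f(u, v)|`, `v ∈ [-1,1]`, and the
total variation of `v ↦ f(u, v)` on `[-1,1]` are at most `B(u)`, the integral of `|E f|^q` over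
`ℝ³` is at most `C` times the integral of `B^q` over `[-1,1]`. -/
theorem result (q : ℝ) (hq : 3 < q) :
    ∃ C : ℝ≥0, ∀ (f : ℝ × ℝ → ℂ) (B : ℝ → ℝ≥0), Measurable f → Measurable B →
      (∀ x, x ∉ Icc (-1 : ℝ) 1 ×ˢ Icc (-1 : ℝ) 1 → f x = 0) →
      (∀ u ∈ Icc (-1 : ℝ) 1, ∀ v ∈ Icc (-1 : ℝ) 1, ‖f (u, v)‖ ≤ B u) →
      (∀ u ∈ Icc (-1 : ℝ) 1, eVariationOn (fun v => f (u, v)) (Icc (-1 : ℝ) 1) ≤ B u) →
      ∫⁻ ξ : ℝ × ℝ × ℝ, ‖ext f ξ‖ₑ ^ q ≤ C * ∫⁻ u in Icc (-1 : ℝ) 1, (B u : ℝ≥0∞) ^ q := by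
  obtain ⟨K, hK, hKK⟩ := Pool.Agent.H728R3.SR.bvq q hq
  have hjt : Pool.Agent.H728R3.SR.jac ≠ ⊤ := ENNReal.ofReal_ne_top
  have hCt : Pool.Agent.H728R3.SR.jac * K + 1 ≠ ⊤ :=
    ENNReal.add_ne_top.2 ⟨ENNReal.mul_ne_top hjt hK, by simp⟩
  refine ⟨(Pool.Agent.H728R3.SR.jac * K + 1).toNNReal, ?_⟩
  intro f B hf hB h0 hb hv
  rw [ENNReal.coe_toNNReal hCt]
  set W := ∫⁻ u in Icc (-1 : ℝ) 1, (B u : ℝ≥0∞) ^ q with hWd
  by_cases hW : W = ⊤
  · rw [hW, ENNReal.mul_top (by simp)]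
    exact le_top
  have hq1 : 1 < q := by linarith
  have hbd : ∀ u v, ‖f (u, v)‖ ≤ B u := by
    intro u v
    by_cases h : (u, v) ∈ Icc (-1 : ℝ) 1 ×ˢ Icc (-1 : ℝ) 1
    · exact hb u h.1 v h.2
    · rw [h0 _ h, norm_zero]
      exact NNReal.coe_nonneg _
  have hvar : ∀ u, eVariationOn (fun v => f (u, v)) (Icc (-1 : ℝ) 1) ≤ B u := by
    intro u
    by_cases hu : u ∈ Icc (-1 : ℝ) 1
    · exact hv u hu
    · have h1 : EqOn (fun v => f (u, v)) (fun _ => 0) (Icc (-1 : ℝ) 1) := by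
        intro v _
        exact h0 (u, v) (fun h2 => hu h2.1)
      rw [eVariationOn.eq_of_eqOn h1, eVariationOn.constant_on]
      · exact zero_le
      · intro x hx y hy
        obtain ⟨_, _, rfl⟩ := hx
        obtain ⟨_, _, rfl⟩ := hy
        rfl
  have hcls : Pool.Agent.H728R3.SR.Cls f B := ⟨hf, hB, h0, hbd, hvar⟩
  have hz1 : ∀ x : ℝ × ℝ, 1 < |x.1| → f x = 0 := by
    intro x hx
    apply h0
    intro h
    have := abs_le.2 h.1
    linarith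
  have hz2 : ∀ x : ℝ × ℝ, 1 < |x.2| → f x = 0 := by
    intro x hx
    apply h0
    intro h
    have := abs_le.2 h.2
    linarith
  have hfin : ∫⁻ x, ‖f x‖ₑ ≠ ⊤ := by
    have hQ : MeasurableSet (Icc (-1 : ℝ) 1 ×ˢ Icc (-1 : ℝ) 1) :=
      measurableSet_Icc.prod measurableSet_Icc
    have h1 : ∀ x : ℝ × ℝ, ‖f x‖ₑ ≤ (Icc (-1 : ℝ) 1).indicator
        (fun u => 1 + (B u : ℝ≥0∞) ^ q) x.1 * (Icc (-1 : ℝ) 1).indicator (fun _ => 1) x.2 := by
      intro x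
      by_cases hx : x ∈ Icc (-1 : ℝ) 1 ×ˢ Icc (-1 : ℝ) 1
      · rw [indicator_of_mem hx.1, indicator_of_mem hx.2, mul_one]
        have h2 : ‖f x‖ₑ ≤ (B x.1 : ℝ≥0∞) := by
          rw [← ofReal_norm, ← ENNReal.ofReal_coe_nnreal]
          exact ENNReal.ofReal_le_ofReal (hbd x.1 x.2)
        refine h2.trans ?_
        by_cases h5 : (B x.1 : ℝ≥0∞) ≤ 1
        · exact h5.trans le_self_add
        · push Not at h5
          refine le_trans ?_ le_add_self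
          calc (B x.1 : ℝ≥0∞) = (B x.1 : ℝ≥0∞) ^ (1 : ℝ) := (ENNReal.rpow_one _).symm
            _ ≤ _ := ENNReal.rpow_le_rpow_of_exponent_le h5.le hq1.le
      · rw [h0 x hx]
        simp
    refine ne_top_of_le_ne_top ?_ (lintegral_mono h1)
    have hm : Measurable fun u => 1 + (B u : ℝ≥0∞) ^ q :=
      ((hB.coe_nnreal_ennreal).pow_const q).const_add 1
    rw [Measure.volume_eq_prod, lintegral_prod_mul (hm.indicator measurableSet_Icc).aemeasurable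
      (measurable_const.indicator measurableSet_Icc).aemeasurable,
      lintegral_indicator measurableSet_Icc, lintegral_indicator measurableSet_Icc,
      lintegral_const, Measure.restrict_apply_univ, Real.volume_Icc,
      lintegral_add_left measurable_const, lintegral_const, Measure.restrict_apply_univ,
      Real.volume_Icc]
    exact ENNReal.mul_ne_top (ENNReal.add_ne_top.2
      ⟨ENNReal.mul_ne_top (by simp) ENNReal.ofReal_ne_top, hW⟩)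
      (ENNReal.mul_ne_top (by simp) ENNReal.ofReal_ne_top)
  have he := ext_eq hf hfin hz1 hz2
  simp only [he]
  rw [Pool.Agent.H728R3.SR.scale3
    (fun x => ‖Pool.Agent.H728R3.SR.FF2 f x.1 x.2.1 x.2.2‖ₑ ^ q)
    ((Pool.Agent.H728R3.SR.FF2_meas hf).enorm.pow_const q)]
  calc Pool.Agent.H728R3.SR.jac * ∫⁻ x : ℝ × ℝ × ℝ,
        ‖Pool.Agent.H728R3.SR.FF2 f x.1 x.2.1 x.2.2‖ₑ ^ q
      ≤ Pool.Agent.H728R3.SR.jac * (K * W) := mul_le_mul_right (hKK f B hcls) _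
    _ = (Pool.Agent.H728R3.SR.jac * K) * W := by rw [mul_assoc]
    _ ≤ (Pool.Agent.H728R3.SR.jac * K + 1) * W := mul_le_mul_left le_self_add _

end Pool.Agent.Results.MP_5ab805_an.BoundedVariation
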