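import Mathlib
import Pool.Agent.H147R3.BV.Seven
import Pool.Agent.H147R3.BV.Eight
set_option autoImplicit false

/-!
# The extension conjecture for the paraboloid in `ℝ³` for functions regular in one direction

Let `f` be bounded on the disc of radius `1/2`, with no regularity in one direction and with
integral moduli of continuity in the orthogonal direction `e`:
`∫ |f(x + y e) - f(x)| dx ≤ V |y|^a` and `∫ |f(x + y e) - f(x)|^2 dx ≤ W |y|^b`. If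
`a (q - 2) + b > 2`, `3 < q < 4`, then `E f ∈ L^q(ℝ³)` with a bound. For `a + b ≥ 2` this is the full
range `q > 3`; for example `a = b = 1` (bounded variation in the direction `e`, in the integrated
sense), or `a > 2/3`, `b = 2 a` (more than `2/3` of a derivative in `L^2` in the direction `e`).
-/

namespace Pool.Agent.Results.MP_5ab805_an.FractionalRegularity

open MeasureTheory Set Complex
open scoped ENNReal NNReal

/-- The Fourier extension operator of the paraboloid in `ℝ³`: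
`E f(ξ) = ∫ exp(-i (x_1 ξ_1 + x_2 ξ_2 + (x_1^2 + x_2^2) ξ_3)) f(x) dx`. -/
noncomputable def ext (f : ℝ × ℝ → ℂ) (ξ : ℝ × ℝ × ℝ) : ℂ :=
  ∫ x : ℝ × ℝ, cexp (-I * (x.1 * ξ.1 + x.2 * ξ.2.1 + (x.1 ^ 2 + x.2 ^ 2) * ξ.2.2)) * f x

/-- The open disc of radius `1/2` about the origin. -/
def disc : Set (ℝ × ℝ) := {x | x.1 ^ 2 + x.2 ^ 2 < 1 / 4}

open Pool.Agent.H147R3 in
lemma ext_eq (f : ℝ × ℝ → ℂ) : ext f = PE.ext f := rfl

open Pool.Agent.H147R3.BV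

/-- rotation of the first two coordinates -/
def rot3 (u v : ℝ) (ξ : ℝ × ℝ × ℝ) : ℝ × ℝ × ℝ :=
  ((rot u v (ξ.1, ξ.2.1)).1, (rot u v (ξ.1, ξ.2.1)).2, ξ.2.2)

lemma rot3_mp (u v : ℝ) (h : u ^ 2 + v ^ 2 = 1) :
    MeasurePreserving (rot3 u v) (volume : Measure (ℝ × ℝ × ℝ)) volume := by
  have h1 : MeasurePreserving (MeasurableEquiv.prodAssoc : (ℝ × ℝ) × ℝ ≃ᵐ ℝ × ℝ × ℝ)
      (volume : Measure ((ℝ × ℝ) × ℝ)) (volume : Measure (ℝ × ℝ × ℝ)) :=
    volume_preserving_prodAssoc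
  have h2 : MeasurePreserving (Prod.map (rot u v) (id : ℝ → ℝ))
      (volume : Measure ((ℝ × ℝ) × ℝ)) volume := (rot_mp u v h).prod (MeasurePreserving.id _)
  exact h1.comp (h2.comp (h1.symm _))

lemma ext_rot (u v : ℝ) (h : u ^ 2 + v ^ 2 = 1) (f : ℝ × ℝ → ℂ) (hf : Measurable f)
    (ξ : ℝ × ℝ × ℝ) : ext (fun x => f (rot u v x)) ξ = ext f (rot3 u v ξ) := by
  unfold ext
  set H : ℝ × ℝ → ℂ := fun z => cexp (-I * (z.1 * (rot3 u v ξ).1 + z.2 * (rot3 u v ξ).2.1 +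
    (z.1 ^ 2 + z.2 ^ 2) * (rot3 u v ξ).2.2)) * f z with hH
  have hHm : Measurable H := by
    rw [hH]
    exact (by fun_prop : Measurable fun z : ℝ × ℝ => cexp (-I * (z.1 * (rot3 u v ξ).1 +
      z.2 * (rot3 u v ξ).2.1 + (z.1 ^ 2 + z.2 ^ 2) * (rot3 u v ξ).2.2))).mul hf
  have h1 : ∫ z, H z = ∫ x, H (rot u v x) := by
    have h2 := integral_map (μ := (volume : Measure (ℝ × ℝ))) (φ := rot u v) (f := H)
      (rot_mp u v h).measurable.aemeasurable hHm.aestronglyMeasurable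
    rw [(rot_mp u v h).map_eq] at h2
    exact h2
  rw [h1]
  apply integral_congr_ae
  refine ae_of_all _ fun x => ?_
  rw [hH]
  simp only
  congr 2
  have e1 : (rot u v x).1 * (rot3 u v ξ).1 + (rot u v x).2 * (rot3 u v ξ).2.1 +
      ((rot u v x).1 ^ 2 + (rot u v x).2 ^ 2) * (rot3 u v ξ).2.2 =
      x.1 * ξ.1 + x.2 * ξ.2.1 + (x.1 ^ 2 + x.2 ^ 2) * ξ.2.2 := by
    rw [rot_norm u v h]
    simp only [rot3, rot]
    linear_combination (x.1 * ξ.1 + x.2 * ξ.2.1) * h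
  have e2 := congrArg (fun r : ℝ => -I * (r : ℂ)) e1
  push_cast at e2
  exact e2.symm

lemma rot_add (u v : ℝ) (x : ℝ × ℝ) (y : ℝ) :
    rot u v (x.1, x.2 - y) = rot u v x + (-y) • ((u, v) : ℝ × ℝ) := by
  ext
  · simp [rot]
    ring
  · simp [rot]
    ring

/-- the differences of the rotated function -/
lemma df_rot (u v : ℝ) (h : u ^ 2 + v ^ 2 = 1) (f : ℝ × ℝ → ℂ) (hf : Measurable f) (y : ℝ)
    (n : ℕ) : ∫⁻ z, ∫⁻ x, ‖df y (fun x => f (rot u v x)) (x, z)‖ₑ ^ n =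
      ∫⁻ x : ℝ × ℝ, ‖f (x + (-y) • ((u, v) : ℝ × ℝ)) - f x‖ₑ ^ n := by
  set H : ℝ × ℝ → ℝ≥0∞ := fun x => ‖f (x + (-y) • ((u, v) : ℝ × ℝ)) - f x‖ₑ ^ n with hH
  have hHm : Measurable H :=
    ((hf.comp (by fun_prop)).sub hf).enorm.pow_const n
  have e1 : ∀ p : ℝ × ℝ, ‖df y (fun x => f (rot u v x)) p‖ₑ ^ n = H (rot u v p) := by
    intro p
    unfold df
    simp only
    rw [rot_add, hH]
    simp only
    rw [enorm_sub_rev]
  have hm : Measurable fun p : ℝ × ℝ => ‖df y (fun x => f (rot u v x)) p‖ₑ ^ n := by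
    simp only [e1]
    exact hHm.comp (rot_cont u v).measurable
  have h1 := lintegral_prod_symm (μ := (volume : Measure ℝ)) (ν := (volume : Measure ℝ))
    (fun p : ℝ × ℝ => ‖df y (fun x => f (rot u v x)) p‖ₑ ^ n) hm.aemeasurable
  rw [← h1, ← Measure.volume_eq_prod]
  simp only [e1]
  exact (rot_mp u v h).lintegral_comp hHm

lemma BS2_rot (u v : ℝ) (h : u ^ 2 + v ^ 2 = 1) (f : ℝ × ℝ → ℂ) (hf : Measurable f) (M : ℝ)
    (hb : ∀ x, ‖f x‖ ≤ M) (hs : ∀ x, x ∉ disc → f x = 0) :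
    Pool.Agent.H147R3.PE.BS2 M (fun x => f (rot u v x)) := by
  refine ⟨hf.comp (rot_cont u v).measurable, fun x => hb _, fun x hx => ?_, fun x hx => ?_⟩
  · apply hs
    intro hd
    have h1 : (rot u v x).1 ^ 2 + (rot u v x).2 ^ 2 < 1 / 4 := hd
    rw [rot_norm u v h] at h1
    have h2 : 1 < x.1 ^ 2 := by
      rw [← sq_abs]
      nlinarith
    nlinarith [sq_nonneg x.2]
  · apply hs
    intro hd
    have h1 : (rot u v x).1 ^ 2 + (rot u v x).2 ^ 2 < 1 / 4 := hd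
    rw [rot_norm u v h] at h1
    have h2 : 1 < x.2 ^ 2 := by
      rw [← sq_abs]
      nlinarith
    nlinarith [sq_nonneg x.1]

lemma ext_meas (f : ℝ × ℝ → ℂ) (hf : Measurable f) : Measurable (ext f) := by
  rw [ext_eq]
  have h1 := (Pool.Agent.H147R3.PE.ext_meas hf).comp (measurable_const (a := (1 : ℝ)) |>.prodMk
    (measurable_id (α := ℝ × ℝ × ℝ)))
  have h2 : (fun p : ℝ × ℝ × ℝ × ℝ => Pool.Agent.H147R3.PE.ext
      (Pool.Agent.H147R3.PE.dil p.1 f) p.2) ∘ (fun ξ : ℝ × ℝ × ℝ => ((1 : ℝ), id ξ)) =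
      Pool.Agent.H147R3.PE.ext f := by
    ext ξ
    simp [dil_one]
  rw [← h2]
  exact h1

lemma general (q a b : ℝ) (hq : 3 < q) (hq4 : q < 4) (ha : 0 ≤ a) (hb : 0 ≤ b)
    (hab : 2 < a * (q - 2) + b) :
    ∃ C : ℝ≥0, ∀ (f : ℝ × ℝ → ℂ) (e : ℝ × ℝ) (M V W : ℝ), Measurable f → (∀ x, ‖f x‖ ≤ M) →
      (∀ x, x ∉ disc → f x = 0) → e.1 ^ 2 + e.2 ^ 2 = 1 → 0 ≤ V → 0 ≤ W →
      (∀ y : ℝ, ∫⁻ x : ℝ × ℝ, ‖f (x + y • e) - f x‖ₑ ≤ ENNReal.ofReal (V * |y| ^ a)) →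
      (∀ y : ℝ, ∫⁻ x : ℝ × ℝ, ‖f (x + y • e) - f x‖ₑ ^ 2 ≤ ENNReal.ofReal (W * |y| ^ b)) →
      ∫⁻ ξ : ℝ × ℝ × ℝ, ‖ext f ξ‖ₑ ^ q ≤
        C * (ENNReal.ofReal (M ^ (q - 2)) * (∫⁻ x : ℝ × ℝ, ‖f x‖ₑ ^ 2) +
          ENNReal.ofReal (V ^ (q - 2) * W)) := by
  obtain ⟨K, hK, hKK⟩ := mainBS q a b hq hq4 ha hb hab
  refine ⟨K.toNNReal, ?_⟩
  intro f e M V W hf hbd hs he hV hW h1 h2
  rw [ENNReal.coe_toNNReal hK]
  rcases ((norm_nonneg _).trans (hbd 0)).eq_or_lt with hM | hM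
  · have h0 : ∀ ξ, ‖ext f ξ‖ₑ ^ q = 0 := by
      intro ξ
      have : ext f ξ = 0 := by
        unfold ext
        have e0 : ∀ x, f x = 0 := fun x => norm_le_zero_iff.1 ((hbd x).trans hM.symm.le)
        simp [e0]
      rw [this, enorm_zero, ENNReal.zero_rpow_of_pos (by linarith)]
    simp only [h0, lintegral_zero]
    exact zero_le
  obtain ⟨u, v⟩ := e
  simp only at he
  have hBS := BS2_rot u v he f hf M hbd hs
  have h3 := hKK M V W (fun x => f (rot u v x)) hM hV hW hBS ?_ ?_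
  · have e1 : ∫⁻ ξ : ℝ × ℝ × ℝ, ‖ext f ξ‖ₑ ^ q =
        ∫⁻ ξ : ℝ × ℝ × ℝ, ‖Pool.Agent.H147R3.PE.ext (fun x => f (rot u v x)) ξ‖ₑ ^ q := by
      rw [← ext_eq]
      simp only [ext_rot u v he f hf]
      exact ((rot3_mp u v he).lintegral_comp ((ext_meas f hf).enorm.pow_const q)).symm
    have e2 : Pool.Agent.H147R3.PE.N2 (fun x => f (rot u v x)) = ∫⁻ x : ℝ × ℝ, ‖f x‖ₑ ^ 2 := by
      unfold Pool.Agent.H147R3.PE.N2
      have hm : Measurable fun p : ℝ × ℝ => ‖f (rot u v p)‖ₑ ^ 2 :=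
        (hf.comp (rot_cont u v).measurable).enorm.pow_const 2
      have h5 := lintegral_prod_symm (μ := (volume : Measure ℝ)) (ν := (volume : Measure ℝ))
        (fun p : ℝ × ℝ => ‖f (rot u v p)‖ₑ ^ 2) hm.aemeasurable
      rw [← h5, ← Measure.volume_eq_prod]
      exact (rot_mp u v he).lintegral_comp (hf.enorm.pow_const 2)
    rw [e1, ← e2]
    exact h3
  · intro y
    have h5 := df_rot u v he f hf y 1
    simp only [pow_one] at h5
    rw [h5]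
    have h6 := h1 (-y)
    rwa [abs_neg] at h6
  · intro y
    rw [df_rot u v he f hf y 2]
    have h6 := h2 (-y)
    rwa [abs_neg] at h6

/-- integrals of a bounded function on the disc -/
lemma l_bound (f : ℝ × ℝ → ℂ) (M : ℝ) (hM : 0 ≤ M) (hb : ∀ x, ‖f x‖ ≤ M)
    (hs : ∀ x, x ∉ disc → f x = 0) (n : ℕ) (hn : n ≠ 0) :
    ∫⁻ x : ℝ × ℝ, ‖f x‖ₑ ^ n ≤ ENNReal.ofReal (4 * M ^ n) := by
  set S : Set (ℝ × ℝ) := Icc (-1) 1 ×ˢ Icc (-1) 1 with hS
  have hSm : MeasurableSet S := measurableSet_Icc.prod measurableSet_Icc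
  have h1 : ∀ x, ‖f x‖ₑ ^ n ≤ S.indicator (fun _ => ENNReal.ofReal (M ^ n)) x := by
    intro x
    by_cases hx : x ∈ S
    · rw [indicator_of_mem hx, ENNReal.ofReal_pow hM, ← ofReal_norm]
      exact pow_le_pow_left' (ENNReal.ofReal_le_ofReal (hb x)) n
    · have h2 : f x = 0 := by
        apply hs
        intro hd
        apply hx
        have h3 : x.1 ^ 2 + x.2 ^ 2 < 1 / 4 := hd
        refine ⟨abs_le.1 ?_, abs_le.1 ?_⟩
        · rw [← sq_le_one_iff_abs_le_one]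
          nlinarith [sq_nonneg x.2]
        · rw [← sq_le_one_iff_abs_le_one]
          nlinarith [sq_nonneg x.1]
      rw [h2, enorm_zero, zero_pow hn]
      exact zero_le
  calc ∫⁻ x : ℝ × ℝ, ‖f x‖ₑ ^ n ≤ ∫⁻ x, S.indicator (fun _ => ENNReal.ofReal (M ^ n)) x :=
        lintegral_mono h1
    _ = ENNReal.ofReal (M ^ n) * 4 := by
        rw [lintegral_indicator hSm, lintegral_const, Measure.restrict_apply_univ, hS,
          Measure.volume_eq_prod, Measure.prod_prod, Real.volume_Icc]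
        congr 1
        rw [← ENNReal.ofReal_mul (by norm_num)]
        norm_num
    _ = _ := by
        rw [mul_comm, ENNReal.ofReal_mul (by norm_num)]
        norm_num

lemma bv (q : ℝ) (hq : 3 < q) :
    ∃ C : ℝ≥0, ∀ (f : ℝ × ℝ → ℂ) (e : ℝ × ℝ) (M V : ℝ), Measurable f → (∀ x, ‖f x‖ ≤ M) →
      (∀ x, x ∉ disc → f x = 0) → e.1 ^ 2 + e.2 ^ 2 = 1 → 0 ≤ V →
      (∀ y : ℝ, ∫⁻ x : ℝ × ℝ, ‖f (x + y • e) - f x‖ₑ ≤ ENNReal.ofReal (V * |y|)) →
      ∫⁻ ξ : ℝ × ℝ × ℝ, ‖ext f ξ‖ₑ ^ q ≤ C * ENNReal.ofReal (M * (M + V) ^ (q - 1)) := by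
  set q₁ : ℝ := min q (7 / 2) with hq₁
  have h3 : 3 < q₁ := lt_min hq (by norm_num)
  have h4 : q₁ < 4 := lt_of_le_of_lt (min_le_right _ _) (by norm_num)
  have h5 : q₁ ≤ q := min_le_left _ _
  obtain ⟨C, hC⟩ := general q₁ 1 1 h3 h4 (by norm_num) (by norm_num) (by linarith)
  refine ⟨(4 ^ (q - q₁) * 6 : ℝ).toNNReal * C, ?_⟩
  intro f e M V hf hb hs he hV h1
  have hM : 0 ≤ M := (norm_nonneg _).trans (hb 0)
  have h2 : ∀ y : ℝ, ∫⁻ x : ℝ × ℝ, ‖f (x + y • e) - f x‖ₑ ^ 2 ≤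
      ENNReal.ofReal (2 * M * V * |y| ^ (1 : ℝ)) := by
    intro y
    calc ∫⁻ x : ℝ × ℝ, ‖f (x + y • e) - f x‖ₑ ^ 2
        ≤ ∫⁻ x : ℝ × ℝ, ENNReal.ofReal (2 * M) * ‖f (x + y • e) - f x‖ₑ := by
          apply lintegral_mono
          intro x
          simp only
          rw [sq]
          gcongr
          rw [← ofReal_norm]
          apply ENNReal.ofReal_le_ofReal
          refine (norm_sub_le _ _).trans ?_
          have := hb x
          have := hb (x + y • e)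
          linarith
      _ = ENNReal.ofReal (2 * M) * ∫⁻ x : ℝ × ℝ, ‖f (x + y • e) - f x‖ₑ :=
          lintegral_const_mul' _ _ ENNReal.ofReal_ne_top
      _ ≤ ENNReal.ofReal (2 * M) * ENNReal.ofReal (V * |y|) := by
          gcongr
          exact h1 y
      _ = _ := by
          rw [← ENNReal.ofReal_mul (by positivity), Real.rpow_one]
          congr 1
          ring
  have h6 := hC f e M V (2 * M * V) hf hb hs he hV (by positivity)
    (fun y => by rw [Real.rpow_one]; exact h1 y) h2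
  have hMV : M ≤ M + V := by linarith
  have hVM : V ≤ M + V := by linarith
  have h7 : ENNReal.ofReal (M ^ (q₁ - 2)) * (∫⁻ x : ℝ × ℝ, ‖f x‖ₑ ^ 2) +
      ENNReal.ofReal (V ^ (q₁ - 2) * (2 * M * V)) ≤
      ENNReal.ofReal (6 * (M * (M + V) ^ (q₁ - 1))) := by
    have e1 : M ^ (q₁ - 2) * M ≤ (M + V) ^ (q₁ - 1) := by
      calc M ^ (q₁ - 2) * M ≤ (M + V) ^ (q₁ - 2) * (M + V) := by
            gcongr
            linarith
        _ = (M + V) ^ (q₁ - 2) * (M + V) ^ (1 : ℝ) := by rw [Real.rpow_one]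
        _ = (M + V) ^ (q₁ - 1) := by
            rw [← Real.rpow_add_of_nonneg (by positivity) (by linarith) (by norm_num)]
            congr 1
            ring
    have e2 : V ^ (q₁ - 2) * V ≤ (M + V) ^ (q₁ - 1) := by
      calc V ^ (q₁ - 2) * V ≤ (M + V) ^ (q₁ - 2) * (M + V) := by
            gcongr
            linarith
        _ = (M + V) ^ (q₁ - 2) * (M + V) ^ (1 : ℝ) := by rw [Real.rpow_one]
        _ = (M + V) ^ (q₁ - 1) := by
            rw [← Real.rpow_add_of_nonneg (by positivity) (by linarith) (by norm_num)]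
            congr 1
            ring
    calc _ ≤ ENNReal.ofReal (M ^ (q₁ - 2)) * ENNReal.ofReal (4 * M ^ 2) +
          ENNReal.ofReal (V ^ (q₁ - 2) * (2 * M * V)) := by
          gcongr
          exact l_bound f M hM hb hs 2 (by norm_num)
      _ = ENNReal.ofReal (M ^ (q₁ - 2) * (4 * M ^ 2) + V ^ (q₁ - 2) * (2 * M * V)) := by
          rw [← ENNReal.ofReal_mul (by positivity), ← ENNReal.ofReal_add (by positivity)
            (by positivity)]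
      _ ≤ _ := by
          apply ENNReal.ofReal_le_ofReal
          have f1 := mul_le_mul_of_nonneg_left e1 (show 0 ≤ 4 * M by positivity)
          have f2 := mul_le_mul_of_nonneg_left e2 (show 0 ≤ 2 * M by positivity)
          nlinarith
  have hsup : ∀ ξ, ‖ext f ξ‖ₑ ≤ ENNReal.ofReal (4 * M) := by
    intro ξ
    have g1 := l_bound f M hM hb hs 1 (by norm_num)
    simp only [pow_one] at g1
    refine le_trans ?_ g1
    unfold ext
    refine (enorm_integral_le_lintegral_enorm _).trans (lintegral_mono fun x => ?_)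
    rw [enorm_mul]
    have : ‖cexp (-I * (x.1 * ξ.1 + x.2 * ξ.2.1 + (x.1 ^ 2 + x.2 ^ 2) * ξ.2.2))‖ₑ = 1 := by
      have e0 : -I * ((x.1 : ℂ) * ξ.1 + x.2 * ξ.2.1 + (x.1 ^ 2 + x.2 ^ 2) * ξ.2.2) =
          ((-(x.1 * ξ.1 + x.2 * ξ.2.1 + (x.1 ^ 2 + x.2 ^ 2) * ξ.2.2) : ℝ) : ℂ) * I := by
        push_cast
        ring
      rw [e0, ← ofReal_norm, Complex.norm_exp_ofReal_mul_I, ENNReal.ofReal_one]
    rw [this, one_mul]
  have hpt : ∀ ξ, ‖ext f ξ‖ₑ ^ q ≤ ENNReal.ofReal ((4 * M) ^ (q - q₁)) * ‖ext f ξ‖ₑ ^ q₁ := by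
    intro ξ
    have e1 : ‖ext f ξ‖ₑ ^ q = ‖ext f ξ‖ₑ ^ (q - q₁) * ‖ext f ξ‖ₑ ^ q₁ := by
      rw [← ENNReal.rpow_add_of_nonneg _ _ (by linarith) (by linarith)]
      congr 1
      ring
    rw [e1, ← ENNReal.ofReal_rpow_of_nonneg (by positivity) (by linarith)]
    exact mul_le_mul_left (ENNReal.rpow_le_rpow (hsup ξ) (by linarith)) _
  calc ∫⁻ ξ : ℝ × ℝ × ℝ, ‖ext f ξ‖ₑ ^ q
      ≤ ∫⁻ ξ : ℝ × ℝ × ℝ, ENNReal.ofReal ((4 * M) ^ (q - q₁)) * ‖ext f ξ‖ₑ ^ q₁ :=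
        lintegral_mono hpt
    _ = ENNReal.ofReal ((4 * M) ^ (q - q₁)) * ∫⁻ ξ : ℝ × ℝ × ℝ, ‖ext f ξ‖ₑ ^ q₁ :=
        lintegral_const_mul' _ _ ENNReal.ofReal_ne_top
    _ ≤ ENNReal.ofReal ((4 * M) ^ (q - q₁)) *
        (C * ENNReal.ofReal (6 * (M * (M + V) ^ (q₁ - 1)))) := by
        gcongr
        exact h6.trans (mul_le_mul_right h7 _)
    _ = C * ENNReal.ofReal ((4 * M) ^ (q - q₁) * (6 * (M * (M + V) ^ (q₁ - 1)))) := by
        rw [ENNReal.ofReal_mul (p := (4 * M) ^ (q - q₁)) (by positivity)]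
        ring
    _ ≤ C * ENNReal.ofReal ((4 ^ (q - q₁) * 6) * (M * (M + V) ^ (q - 1))) := by
        refine mul_le_mul_right (ENNReal.ofReal_le_ofReal ?_) _
        have g1 : (4 * M) ^ (q - q₁) ≤ 4 ^ (q - q₁) * (M + V) ^ (q - q₁) := by
          rw [← Real.mul_rpow (by norm_num) (by positivity)]
          apply Real.rpow_le_rpow (by positivity) (by linarith) (by linarith)
        have g2 : (M + V) ^ (q - q₁) * (M + V) ^ (q₁ - 1) = (M + V) ^ (q - 1) := by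
          rw [← Real.rpow_add_of_nonneg (by positivity) (by linarith) (by linarith)]
          congr 1
          ring
        calc (4 * M) ^ (q - q₁) * (6 * (M * (M + V) ^ (q₁ - 1)))
            ≤ (4 ^ (q - q₁) * (M + V) ^ (q - q₁)) * (6 * (M * (M + V) ^ (q₁ - 1))) :=
              mul_le_mul_of_nonneg_right g1 (by positivity)
          _ = 4 ^ (q - q₁) * 6 * (M * ((M + V) ^ (q - q₁) * (M + V) ^ (q₁ - 1))) := by ring
          _ = _ := by rw [g2]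
    _ = _ := by
        rw [ENNReal.ofReal_mul (p := 4 ^ (q - q₁) * 6) (by positivity), ENNReal.coe_mul,
          ← ENNReal.ofReal]
        ring

/-- **The extension inequality for bounded functions with regularity in one direction only.**
`E = ext` is the extension operator of the paraboloid in `ℝ³`; `f` is measurable, `|f| ≤ M`, and
`f = 0` off the disc of radius `1/2`; `e` is any unit vector.

(1) If `3 < q < 4`, `∫ |f(x + y e) - f(x)| dx ≤ V |y|^a` and `∫ |f(x + y e) - f(x)|^2 dx ≤ W |y|^b`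
for all `y`, and `a (q - 2) + b > 2`, then `∫ |E f|^q ≤ C (M^(q-2) ∫ |f|^2 + V^(q-2) W)`.

(2) If `q > 3` and `∫ |f(x + y e) - f(x)| dx ≤ V |y|` for all `y` (bounded variation in the
direction `e`), then `∫ |E f|^q ≤ C M (M + V)^(q-1)`.

The constants do not depend on `f`, `e`, `M`, `V`, `W`. -/
theorem result :
    (∀ q a b : ℝ, 3 < q → q < 4 → 0 ≤ a → 0 ≤ b → 2 < a * (q - 2) + b →
      ∃ C : ℝ≥0, ∀ (f : ℝ × ℝ → ℂ) (e : ℝ × ℝ) (M V W : ℝ), Measurable f → (∀ x, ‖f x‖ ≤ M) →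
        (∀ x, x ∉ disc → f x = 0) → e.1 ^ 2 + e.2 ^ 2 = 1 → 0 ≤ V → 0 ≤ W →
        (∀ y : ℝ, ∫⁻ x : ℝ × ℝ, ‖f (x + y • e) - f x‖ₑ ≤ ENNReal.ofReal (V * |y| ^ a)) →
        (∀ y : ℝ, ∫⁻ x : ℝ × ℝ, ‖f (x + y • e) - f x‖ₑ ^ 2 ≤ ENNReal.ofReal (W * |y| ^ b)) →
        ∫⁻ ξ : ℝ × ℝ × ℝ, ‖ext f ξ‖ₑ ^ q ≤
          C * (ENNReal.ofReal (M ^ (q - 2)) * (∫⁻ x : ℝ × ℝ, ‖f x‖ₑ ^ 2) +
            ENNReal.ofReal (V ^ (q - 2) * W))) ∧
    (∀ q : ℝ, 3 < q →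
      ∃ C : ℝ≥0, ∀ (f : ℝ × ℝ → ℂ) (e : ℝ × ℝ) (M V : ℝ), Measurable f → (∀ x, ‖f x‖ ≤ M) →
        (∀ x, x ∉ disc → f x = 0) → e.1 ^ 2 + e.2 ^ 2 = 1 → 0 ≤ V →
        (∀ y : ℝ, ∫⁻ x : ℝ × ℝ, ‖f (x + y • e) - f x‖ₑ ≤ ENNReal.ofReal (V * |y|)) →
        ∫⁻ ξ : ℝ × ℝ × ℝ, ‖ext f ξ‖ₑ ^ q ≤ C * ENNReal.ofReal (M * (M + V) ^ (q - 1))) :=
  ⟨general, bv⟩

end Pool.Agent.Results.MP_5ab805_an.FractionalRegularity
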