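import Mathlib
import Pool.Agent.H728R3.SR.L
set_option autoImplicit false

/-!
# The extension conjecture for the paraboloid in `ℝ³`, from `L^q` to `L^q`, with random signs in
# one variable

Let `I_1, ..., I_N` be any disjoint intervals in `[-1,1]` and let `g_1, ..., g_N` be any measurable
functions on `[-1,1]`. For signs `ε_k` put `f_ε(x) = ∑ ε_k 1_{I_k}(x_1) g_k(x_2)`. For every `q > 3`
the inequality `‖E f_ε‖_q ≤ C ‖f_ε‖_q` of the extension conjecture holds on average over the signs,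
with a constant depending only on `q`.
-/

namespace Pool.Agent.Results.MP_5ab805_an.SemiRandomLq

open MeasureTheory Set Complex
open scoped ENNReal NNReal

/-- The extension operator of the problem, `E f(ξ) = ∫ exp(-i Φ(x)·ξ) f(x) dx` with
`Φ(x) = (x₁, x₂, x₁² + x₂²)`; here `ξ = (ξ₁, (ξ₂, ξ₃))`. -/
noncomputable def ext (f : ℝ × ℝ → ℂ) (ξ : ℝ × ℝ × ℝ) : ℂ :=
  ∫ x : ℝ × ℝ, cexp (-I * (x.1 * ξ.1 + x.2 * ξ.2.1 + (x.1 ^ 2 + x.2 ^ 2) * ξ.2.2)) * f x

/-- The function `f_ε(x) = ∑_k ε_k 1_{(a_k, b_k]}(x₁) g_k(x₂)`; the sign `ε_k` is `1` if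
`ε k = true` and `-1` otherwise. -/
noncomputable def semi {N : ℕ} (a b : Fin N → ℝ) (g : Fin N → ℝ → ℂ) (ε : Fin N → Bool)
    (x : ℝ × ℝ) : ℂ :=
  ∑ k, (if ε k then 1 else -1) * (Ioc (a k) (b k)).indicator (fun _ => g k x.2) x.1

lemma semi_eq {N : ℕ} (a b : Fin N → ℝ) (g : Fin N → ℝ → ℂ) (ε : Fin N → Bool) :
    semi a b g ε = Pool.Agent.H728R3.SR.semi a b g ε := by
  ext x
  unfold semi Pool.Agent.H728R3.SR.semi
  apply Finset.sum_congr rfl
  intro k _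
  congr 1
  unfold Pool.Agent.H728R3.SR.sg
  split_ifs <;> simp

/-- **The extension conjecture with random signs in one variable, from `L^q` to `L^q`.** For every
`q > 3` there is `C` such that for all disjoint intervals `(a_k, b_k] ⊆ [-1,1]`, `k < N`, and all
measurable `g_k` vanishing off `[-1,1]`, the average over the `2^N` choices of signs `ε` of
`∫ |E f_ε|^q` is at most `C ∫ |f|^q`; here `|f| = |f_{ε'}|` for any signs `ε'`, as the
intervals are disjoint. -/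
theorem result (q : ℝ) (hq : 3 < q) :
    ∃ C : ℝ≥0, ∀ (N : ℕ) (a b : Fin N → ℝ) (g : Fin N → ℝ → ℂ),
      (∀ k, -1 ≤ a k ∧ a k ≤ b k ∧ b k ≤ 1) →
      (∀ j k, j ≠ k → Disjoint (Ioc (a j) (b j)) (Ioc (a k) (b k))) →
      (∀ k, Measurable (g k)) → (∀ k y, 1 < |y| → g k y = 0) →
      ∀ ε' : Fin N → Bool,
        ((2 : ℝ≥0∞) ^ N)⁻¹ * ∑ ε : Fin N → Bool,
          ∫⁻ ξ : ℝ × ℝ × ℝ, ‖ext (semi a b g ε) ξ‖ₑ ^ q ≤
            C * ∫⁻ x : ℝ × ℝ, ‖semi a b g ε' x‖ₑ ^ q := by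
  obtain ⟨K, hK, -, hKK⟩ := Pool.Agent.H728R3.SR.main_W q hq
  refine ⟨K.toNNReal, ?_⟩
  intro N a b g hab hdj hgm hg0 ε'
  rw [ENNReal.coe_toNNReal hK]
  have h : Pool.Agent.H728R3.SR.Itv a b :=
    ⟨fun k => (hab k).1, fun k => (hab k).2.1, fun k => (hab k).2.2, fun j k hjk => hdj j k hjk⟩
  simp only [semi_eq]
  rw [Pool.Agent.H728R3.SR.semi_norm h hgm q (by linarith) ε']
  exact hKK N a b g h hgm hg0

end Pool.Agent.Results.MP_5ab805_an.SemiRandomLq
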